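import Pool.Agent.MP_71daef_lc.Link

/-!
The girth can be computed in deterministic polynomial time in every minor-closed class of binary
matroids that does not contain all graphic matroids.
-/

set_option autoImplicit false

namespace Pool.Agent.Results.MP_71daef_lc.ExclGraphic

open Matroid

/-- `M` is the column matroid of the matrix `A` over the field with two elements. -/
def IsColMatroid {m n : ℕ} (M : Matroid (Fin n)) (A : Matrix (Fin m) (Fin n) (ZMod 2)) : Prop :=
  M.E = Set.univ ∧ ∀ I, M.Indep I ↔ LinearIndepOn (ZMod 2) (fun j i => A i j) I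

/-- The vertex-edge incidence matrix mod 2 of the multigraph on `Fin v` whose edge `e` has the
ends `s e` and `t e` (a loop gives a zero column). -/
def incidence {v k : ℕ} (s t : Fin k → Fin v) : Matrix (Fin v) (Fin k) (ZMod 2) :=
  fun u e => (if u = s e then 1 else 0) + (if u = t e then 1 else 0)

/-- `N` is the cycle matroid of a finite multigraph. -/
def IsGraphic {k : ℕ} (N : Matroid (Fin k)) : Prop :=
  ∃ (v : ℕ) (s t : Fin k → Fin v), IsColMatroid N (incidence s t)

/-- `N` and `M` are isomorphic. -/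
def Isom {k n : ℕ} (N : Matroid (Fin k)) (M : Matroid (Fin n)) : Prop :=
  ∃ f : N.E ≃ M.E, ∀ I : Set N.E,
    N.Indep (Subtype.val '' I) ↔ M.Indep (Subtype.val '' (f '' I))

/-- The class `𝓜` is closed under minors and under isomorphism. -/
def MinorClosed (𝓜 : ∀ n : ℕ, Set (Matroid (Fin n))) : Prop :=
  (∀ (n : ℕ) (M N : Matroid (Fin n)), M ∈ 𝓜 n → N ≤m M → N ∈ 𝓜 n) ∧
  (∀ (n k : ℕ) (M : Matroid (Fin n)) (N : Matroid (Fin k)), M ∈ 𝓜 n → Isom N M → N ∈ 𝓜 k)

/-- The girth: the least size of a circuit, `⊤` if there is none. -/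
noncomputable def girth {n : ℕ} (M : Matroid (Fin n)) : ℕ∞ :=
  ⨅ C ∈ {C : Set (Fin n) | M.IsCircuit C}, C.encard

/-- A binary matrix as the list of its columns. -/
def columns {m n : ℕ} (A : Matrix (Fin m) (Fin n) (ZMod 2)) : List (List Bool) :=
  List.ofFn fun j => List.ofFn fun i => decide (A i j = 1)

open Pool.Agent.MP71

theorem col_columns {m n : ℕ} (A : Matrix (Fin m) (Fin n) (ZMod 2)) :
    (fun j : Fin n => col m (columns A) j) = fun j i => A i j := by
  funext j i
  rcases f2_cases (A i j) with h | h <;> simp [col, ent, columns, h]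

theorem exists_minor {m n v k : ℕ} {M : Matroid (Fin n)} {A : Matrix (Fin m) (Fin n) (ZMod 2)}
    (hM : IsColMatroid M A) {N : Matroid (Fin k)} {s t : Fin k → Fin v}
    (hN : IsColMatroid N (incidence s t))
    (h : HasK (Fintype.card (Fin v ⊕ Fin k × Bool)) (Set.range (fun j i => A i j))) :
    ∃ M', M' ≤m M ∧ Isom N M' := by
  obtain ⟨C, ψ, h1, h2, h3, h4⟩ := h.graph s t
  have hE : (M ／ C ＼ (Set.range ψ)ᶜ).E = Set.range ψ := by
    ext j
    simp only [delete_ground, contract_ground, hM.1, Set.mem_sdiff, Set.mem_univ, true_and,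
      Set.mem_compl_iff, not_not, and_iff_right_iff_imp]
    rintro ⟨e, rfl⟩
    exact h3 e
  have hb : Set.BijOn ψ N.E (M ／ C ＼ (Set.range ψ)ᶜ).E := by
    rw [hE, hN.1, ← Set.image_univ]
    exact h2.injOn.bijOn_image
  refine ⟨_, contract_delete_isMinor M C (Set.range ψ)ᶜ, hb.equiv ψ, fun I => ?_⟩
  have e1 : Subtype.val '' (hb.equiv ψ '' I) = ψ '' (Subtype.val '' I) := by
    rw [Set.image_image, Set.image_image]; rfl
  have e2 : (fun e u => incidence s t u e) =
      fun e => (Pi.single (s e) 1 + Pi.single (t e) 1 : Fin v → F2) := by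
    funext e u
    simp [incidence, Pi.single_apply]
  rw [e1, hN.2, e2, h4, delete_indep_iff, ((hM.2 C).2 h1).contract_indep_iff, hM.2,
    Set.union_comm C]
  refine ⟨fun h => ⟨⟨?_, h⟩, ?_⟩, fun h => h.1.2⟩
  · exact Set.disjoint_left.2 (by rintro _ ⟨e, -, rfl⟩; exact h3 e)
  · exact Set.disjoint_compl_right_iff_subset.2 (Set.image_subset_range _ _)

theorem result (𝓜 : ∀ n : ℕ, Set (Matroid (Fin n))) (h𝓜 : MinorClosed 𝓜)
    (hg : ∃ (k : ℕ) (N : Matroid (Fin k)), IsGraphic N ∧ N ∉ 𝓜 k) :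
    ∃ f : List (List Bool) → ℕ, N68a2faeb.IsPolyTime f ∧
      ∀ (m n : ℕ) (A : Matrix (Fin m) (Fin n) (ZMod 2)) (M : Matroid (Fin n)),
        IsColMatroid M A → M ∈ 𝓜 n →
          girth M = if f (columns A) = 0 then ⊤ else (f (columns A) : ℕ∞) := by
  obtain ⟨k, N, ⟨v, s, t, hN⟩, hNM⟩ := hg
  obtain ⟨d, hd⟩ := exists_vc (gc (Fintype.card (Fin v ⊕ Fin k × Bool)))
  refine ⟨_, poly_alg (2 * (8 * gc (Fintype.card (Fin v ⊕ Fin k × Bool)) * d + 2)),
    fun m n A M hM hMM => ?_⟩
  set r := alg (2 * (8 * gc (Fintype.card (Fin v ⊕ Fin k × Bool)) * d + 2)) (columns A) with hr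
  have hlen : (columns A).length = n := by simp [columns]
  rcases n with _ | n
  · have h0 : r = 0 := by simp [hr, alg, columns, Pool.Agent.H82.idx]
    rw [if_pos h0, girth, iInf₂_eq_top]
    exact fun C hC => (IsCircuit.nonempty hC).elim fun j => j.elim0
  have hm : ((columns A).headD []).length = m := by simp [columns, List.ofFn_succ]
  have hK : ¬ HasK (Fintype.card (Fin v ⊕ Fin k × Bool))
      (col m (columns A) '' (Finset.range (columns A).length : Finset ℕ)) := fun h => by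
    obtain ⟨M', h1, h2⟩ := exists_minor hM hN (h.mono (by
      rintro _ ⟨j, hj, rfl⟩
      rw [hlen, Finset.mem_coe, Finset.mem_range] at hj
      exact ⟨⟨j, hj⟩, (congrFun (col_columns A) ⟨j, hj⟩).symm⟩))
    exact hNM (h𝓜.2 _ _ _ _ (h𝓜.1 _ _ _ hMM h1) h2)
  have hdep : ∀ S, M.Dep S ↔ ∃ Z : Finset (Fin (n + 1)), (Z : Set (Fin (n + 1))) ⊆ S ∧
      Z.Nonempty ∧ ∑ j ∈ Z, col m (columns A) j = 0 := fun S => by
    rw [dep_iff, hM.1, hM.2, ← col_columns, MP71.not_indep_iff, and_iff_left (Set.subset_univ _)]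
  have h1 : ∀ C, M.IsCircuit C → r ≠ 0 ∧ (r : ℕ∞) ≤ C.encard := fun C hC => by
    obtain ⟨Z, h1, h2, h3⟩ := (hdep C).1 hC.dep
    have := alg_complete hm hd hK (Z := Z.map Fin.valEmbedding) (fun j hj => by
      obtain ⟨j, -, rfl⟩ := Finset.mem_map.1 hj
      rw [hlen]; exact Finset.mem_range.2 j.2) (by simpa using h2) (by simpa using h3)
    rw [Finset.card_map] at this
    refine ⟨this.1, le_trans ?_ (Set.encard_le_encard h1)⟩
    rw [Set.encard_coe_eq_coe_finsetCard]
    exact_mod_cast this.2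
  split_ifs with h0
  · rw [girth, iInf₂_eq_top]
    exact fun C hC => absurd h0 (h1 C hC).1
  · refine le_antisymm ?_ (le_iInf₂ fun C hC => (h1 C hC).2)
    obtain ⟨Z, h2, h3, h4⟩ := alg_sound hm h0
    rw [hlen] at h2
    have h5 : (Finset.univ.filter (fun j : Fin (n + 1) => (j : ℕ) ∈ Z)).map Fin.valEmbedding =
        Z := by
      ext j
      simp only [Finset.mem_map, Finset.mem_filter, Finset.mem_univ, true_and,
        Fin.valEmbedding_apply]
      exact ⟨fun ⟨_, h, e⟩ => e ▸ h, fun h => ⟨⟨j, Finset.mem_range.1 (h2 h)⟩, h, rfl⟩⟩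
    rw [← h5, Finset.card_map] at h4
    rw [← h5, Finset.sum_map] at h3
    obtain ⟨C, h6, h7⟩ := ((hdep _).2 ⟨_, subset_rfl,
      Finset.card_pos.1 (h4 ▸ Nat.pos_of_ne_zero h0), h3⟩).exists_isCircuit_subset
    refine (iInf₂_le C h7).trans ((Set.encard_le_encard h6).trans ?_)
    rw [Set.encard_coe_eq_coe_finsetCard, h4]

end Pool.Agent.Results.MP_71daef_lc.ExclGraphic
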